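import Pool.Agent.H72.G9.UXCb

/-!
# Row UXC of the board g9 (MP_c59857_nt, theorem (H)): the energies on the multiples of the primes
of the level, one window
-/

set_option autoImplicit false

open Finset Pool.Agent.H6.N4D Pool.Agent.H93 Pool.Agent.H93.GS Pool.Agent.H6.GS2 Pool.Agent.H6.G9

namespace Pool.Agent.H72.G9

open Pool.Agent.H48.GSW (ong_q ind_nonneg ind_le_one ind_true ind_false exc_sum lin_le)

/-- the numbers of the level -/
lemma nums (k p₀ C₁ m : ℕ) (hm : 4 * p₀ + 2 * C₁ + 900 * (k + 8) ≤ m) :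
    (∀ q ∈ EB.QQ m, C₁ * q ≤ 2 ^ (m - p₀)) ∧
    (∀ q ∈ EB.QQ m, 8 * ((k : ℝ) + 1) * (2 ^ (m / 100) / 2 ^ m) * q < 1) ∧
    2 * ((k : ℝ) + 1) * (2 ^ (m / 100) / 2 ^ m) ≤ 2 ^ (m / 90) / 2 ^ m ∧
    4 * ((k : ℝ) + 1) * (2 ^ (m / 100) / 2 ^ m) ≤ ((2 ^ m : ℕ) : ℝ) ^ (-(1 / 2) : ℝ) ∧
    ((k : ℝ) + 1) * (2 ^ (m / 100) / 2 ^ m) ≤ 4 * 2 ^ (m / 50) / 2 ^ m := by
  have hk2 : k + 1 ≤ 2 ^ k := Nat.lt_two_pow_self
  have hk2r : (k : ℝ) + 1 ≤ 2 ^ k := by exact_mod_cast hk2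
  have hk0 : (0 : ℝ) ≤ k := Nat.cast_nonneg k
  have hM : (0 : ℝ) < 2 ^ m := by positivity
  have h90 : (k : ℝ) + 1 ≤ 2 ^ k ∧ 2 * ((k : ℝ) + 1) * 2 ^ (m / 100) ≤ 2 ^ (m / 90) := by
    refine ⟨hk2r, ?_⟩
    calc 2 * ((k : ℝ) + 1) * 2 ^ (m / 100) ≤ 2 * 2 ^ k * 2 ^ (m / 100) := by gcongr
      _ = 2 ^ (1 + k + m / 100) := by rw [pow_add, pow_add, pow_one]
      _ ≤ 2 ^ (m / 90) := pow_le_pow_right₀ (by norm_num) (by omega)
  refine ⟨?_, ?_, ?_, ?_, ?_⟩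
  · intro q hq
    obtain ⟨-, -, hq2, -, -, -⟩ := ong_q hq
    calc C₁ * q ≤ 2 ^ C₁ * 2 ^ (m / 200) := Nat.mul_le_mul Nat.lt_two_pow_self.le hq2
      _ = 2 ^ (C₁ + m / 200) := by rw [pow_add]
      _ ≤ 2 ^ (m - p₀) := Nat.pow_le_pow_right (by norm_num) (by omega)
  · intro q hq
    obtain ⟨-, -, hq2, -, -, -⟩ := ong_q hq
    have hq2' : (q : ℝ) ≤ 2 ^ (m / 200) := by exact_mod_cast hq2
    have h1 : 8 * ((k : ℝ) + 1) * (2 ^ (m / 100) / 2 ^ m) * q ≤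
        8 * 2 ^ k * (2 ^ (m / 100) / 2 ^ m) * 2 ^ (m / 200) := by gcongr
    refine h1.trans_lt ?_
    have h2 : 8 * 2 ^ k * ((2 : ℝ) ^ (m / 100) / 2 ^ m) * 2 ^ (m / 200) =
        2 ^ (3 + k + m / 100 + m / 200) / 2 ^ m := by
      rw [pow_add, pow_add, pow_add]; ring
    rw [h2, div_lt_one hM]
    exact pow_lt_pow_right₀ (by norm_num) (by omega)
  · rw [← mul_div_assoc]
    exact div_le_div_of_nonneg_right h90.2 hM.le
  · rw [Real.rpow_neg (by positivity), ← Real.sqrt_eq_rpow, le_inv_comm₀ (by positivity)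
      (Real.sqrt_pos.2 (by positivity))]
    have h1 : √((2 ^ m : ℕ) : ℝ) ≤ 2 ^ (m / 2 + 1) := by
      rw [Real.sqrt_le_left (by positivity), ← pow_mul]
      push_cast
      exact pow_le_pow_right₀ (by norm_num) (by omega)
    refine h1.trans ?_
    rw [le_inv_comm₀ (by positivity) (by positivity), ← one_div, le_div_iff₀ (by positivity)]
    calc 4 * ((k : ℝ) + 1) * (2 ^ (m / 100) / 2 ^ m) * 2 ^ (m / 2 + 1)
        ≤ 4 * 2 ^ k * (2 ^ (m / 100) / 2 ^ m) * 2 ^ (m / 2 + 1) := by gcongr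
      _ = 2 ^ (2 + k + m / 100 + (m / 2 + 1)) / 2 ^ m := by
          rw [pow_add, pow_add, pow_add]; ring
      _ ≤ 1 := by
          rw [div_le_one hM]
          exact pow_le_pow_right₀ (by norm_num) (by omega)
  · rw [← mul_div_assoc]
    apply div_le_div_of_nonneg_right _ hM.le
    have h1 : (2 : ℝ) ^ (m / 90) ≤ 2 ^ (m / 50) := pow_le_pow_right₀ (by norm_num) (by omega)
    have h2 : (0 : ℝ) < 2 ^ (m / 100) := by positivity
    nlinarith [h90.2]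

theorem pf_UXC (hS : T_SEP) (hO : T_OPD) (hB : T_BNM) (hL : T_LFC) (h0 : T_LF0)
    (hC : T_LCF) (hN : T_NRS) (h1 : T_UX1) (hU : T_UBB) : T_UXC := by
  classical
  intro th hth hth1
  obtain ⟨P₀, C₁, κ₁, hP₀, hC₁, hκ₁, hκ₁1, hsep⟩ := hS th 1 hth hth1 le_rfl
  obtain ⟨m₂, hL⟩ := hL
  obtain ⟨m₃, h0⟩ := h0
  obtain ⟨m₄, hN⟩ := hN
  obtain ⟨m₅, hQ⟩ := Pool.Agent.H20.ENM.pf_QMS
  obtain ⟨k, hk⟩ : ∃ k : ℕ, k = ⌊5 / th ^ 2⌋₊ := ⟨_, rfl⟩
  obtain ⟨m₆, C₆, hC₆, hU⟩ := hU (k * (2 * k) + k) (1 / th) (by positivity)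
  obtain ⟨C, hCd⟩ : ∃ C : ℝ, C = 3 * (1 / th) ^ 2 + (2 + 8 / th) * (1 + (k : ℝ) ^ 2) := ⟨_, rfl⟩
  have hCp : 0 < C := by rw [hCd]; positivity
  refine ⟨κ₁ ^ 2, 1 / th, C, P₀, k * (2 * k) + k,
    4 * P₀ + 2 * C₁ + 900 * (k + 8) + m₂ + m₃ + m₄ + m₅ + m₆, by positivity, by positivity, hCp,
    by omega, ?_⟩
  intro lam m n g hm hl hg hgD hgap
  obtain ⟨n1, n2, n3, n4, n5⟩ := nums k P₀ C₁ m (by omega)
  have hQ := hQ m (by omega)
  have hL := hL m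
  have h0 := h0 m
  have hk' : ∀ r : ℕ, (r : ℝ) ≤ 5 / th ^ 2 → r ≤ k := fun r hr => by
    rw [hk]; exact Nat.le_floor hr
  have hP2 : P₀ ≤ 2 ^ P₀ := Nat.lt_two_pow_self.le
  have hPL : 2 ^ P₀ * 2 ^ (m - P₀) = 2 ^ m := by rw [← pow_add]; congr 1; omega
  have hN1 : 1 ≤ 2 ^ m := Nat.one_le_two_pow
  obtain ⟨η, hη⟩ : ∃ η : ℝ, η = 2 ^ (m / 100) / 2 ^ m := ⟨_, rfl⟩
  have hη0 : 0 < η := by rw [hη]; positivity
  rw [← hη] at n2 n3 n4 n5
  -- the sum of the window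
  have hgk : g.k ≤ k := by
    have h2 := hsep lam 1 (2 ^ P₀) (2 ^ (m - P₀)) n g hl le_rfl
    rw [hPL] at h2
    refine hk' _ (h2 ?_ hP2 hg hgD hgap).2
    rw [mul_one]
    calc C₁ ≤ 2 ^ C₁ := Nat.lt_two_pow_self.le
      _ ≤ 2 ^ (m - P₀) := Nat.pow_le_pow_right (by norm_num) (by omega)
  have hnm : ∀ q ∈ EB.QQ m, ∀ h : Ex, Opt th lam q (2 ^ m) n h → h.nm ≤ 1 / th := by
    intro q hq h hh
    obtain ⟨-, hq1, -, -, hqN, -⟩ := ong_q hq
    have h2 := (hB th lam q (2 ^ m) n h hth hl hq1 hN1 hh).1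
    have h3 : (q : ℝ) / ((2 ^ m : ℕ) : ℝ) ≤ 1 := by
      rw [div_le_one (by positivity)]; exact_mod_cast hqN
    rw [le_div_iff₀ hth]
    linarith
  have hgnm : g.nm ≤ 1 / th := by
    have h2 := (hB th lam 1 (2 ^ m) n g hth hl le_rfl hN1 hg).1
    have h3 : ((1 : ℕ) : ℝ) / ((2 ^ m : ℕ) : ℝ) ≤ 1 := by
      rw [div_le_one (by positivity)]; exact_mod_cast hN1
    rw [le_div_iff₀ hth]
    linarith
  have hcn : ∀ (h : Ex) (i : ℕ), i < h.k → ‖h.c i‖ ≤ h.nm := by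
    intro h i hi
    unfold Ex.nm
    exact single_le_sum (f := fun i => ‖h.c i‖) (fun i _ => norm_nonneg _) (mem_range.2 hi)
  -- the optimal sums of the primes
  have hopt : ∀ q, ∃ h : Ex, q ∈ EB.QQ m → (Opt th lam q (2 ^ m) n h ∧ Dst q h) := by
    intro q
    by_cases hq : q ∈ EB.QQ m
    · obtain ⟨-, hq1, -, -, hqN, -⟩ := ong_q hq
      obtain ⟨h, hh⟩ := hO th lam q (2 ^ m) n hth hl hq1 hN1
      exact ⟨h, fun _ => hh⟩
    · exact ⟨g, fun h => absurd h hq⟩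
  choose h hh using hopt
  choose z hz using fun l => hL (fun q => (h q).a l) (by omega)
  obtain ⟨Gd, hGd⟩ : ∃ Gd : ℕ → Prop, Gd = fun q => q ∈ EB.QQ m ∧
    gapq th lam q (2 ^ P₀) (2 ^ (m - P₀)) n ≤ κ₁ ^ 2 ∧ ¬ Exc q (2 ^ m) g.k g.a := ⟨_, rfl⟩
  have hGd' : ∀ q, Gd q → q ∈ EB.QQ m ∧
    gapq th lam q (2 ^ P₀) (2 ^ (m - P₀)) n ≤ κ₁ ^ 2 ∧ ¬ Exc q (2 ^ m) g.k g.a :=
    fun q hq => by rw [hGd] at hq; exact hq
  have hkk : ∀ q, Gd q → (h q).k ≤ k := by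
    intro q hq
    obtain ⟨hqQ, hgp, -⟩ := hGd' q hq
    obtain ⟨-, hq1, -, -, hqN, -⟩ := ong_q hqQ
    have h2 := hsep lam q (2 ^ P₀) (2 ^ (m - P₀)) n (h q) hl hq1 (n1 q hqQ) hP2
    rw [hPL] at h2
    exact hk' _ (h2 (hh q hqQ).1 (hh q hqQ).2 hgp).2
  -- the condition on the sum of the window
  have hexc : ∀ q, Gd q → ∀ i < g.k, ∀ j < g.k, ∀ s : ℤ, ¬ ((q : ℤ) ∣ s) →
      4 * ((k : ℝ) + 1) * η < nd (g.a i - g.a j - (s : ℝ) / q) := by
    intro q hq i hi j hj s hs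
    by_contra hcon
    push Not at hcon
    exact (hGd' q hq).2.2 ⟨i, hi, j, hj, s, hs, hcon.trans n4⟩
  -- the lifts
  have hcl : ∀ q, ∃ (α : ℕ → ℝ) (V : ℕ → ℕ), Gd q →
      ((∀ l < (h q).k, ∃ s : ℤ, α l = (h q).a l + (s : ℝ) / q) ∧
      (∀ l < (h q).k, V l < 2 * k) ∧
      (∀ l < (h q).k, (V l < k ∧ nd (α l - g.a (V l)) ≤ ((k : ℝ) + 1) * η) ∨
        (k ≤ V l ∧ nd (α l - ((h q).a (V l - k) + (z (V l - k) q : ℝ) / q)) ≤
          ((k : ℝ) + 1) * η)) ∧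
      (∀ l < (h q).k, ∀ l' < (h q).k, Sp m q (α l) (α l')) ∧
      (∀ l < (h q).k, ∀ i < g.k, Sp m q (α l) (g.a i))) := by
    intro q
    by_cases hq : Gd q
    · obtain ⟨hqQ, hgp, -⟩ := hGd' q hq
      obtain ⟨-, hq1, -, -, hqN, -⟩ := ong_q hqQ
      have hq0 : (0 : ℝ) < q := by exact_mod_cast hq1
      have hkq := hkk q hq
      have hkqr : ((h q).k : ℝ) ≤ k := by exact_mod_cast hkq
      obtain ⟨α, s, f, c1, c2, c3, c4⟩ := hC q (h q).k g.k η 0 (h q).a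
        (fun l => (h q).a l + (z l q : ℝ) / q) g.a hq1 hη0 le_rfl
        (by
          refine lt_of_le_of_lt ?_ (n2 q hqQ)
          gcongr)
        (fun l _ => ⟨z l q, by
          have e : (h q).a l + (z l q : ℝ) / q - (h q).a l - (z l q : ℝ) / q = 0 := by ring
          rw [e, nd_zero']⟩)
        (fun i hi j hj s hs => by
          refine lt_of_le_of_lt ?_ (hexc q hq i hi j hj s hs)
          gcongr)
      have hb : ∀ x : ℝ, x ≤ 2 * (((h q).k : ℝ) + 1) * η → x ≤ 2 ^ (m / 90) / 2 ^ m := by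
        intro x hx
        refine hx.trans (le_trans ?_ n3)
        gcongr
      have hb2 : ∀ x : ℝ, x ≤ (((h q).k : ℝ) + 1) * η → x ≤ ((k : ℝ) + 1) * η := by
        intro x hx
        refine hx.trans ?_
        gcongr
      refine ⟨α, fun l => if f l < g.k then f l else k + (f l - g.k), fun _ =>
        ⟨fun l hl => ⟨s l, c1 l hl⟩, fun l hl => ?_, fun l hl => ?_, fun l hl l' hl' => ?_,
          fun l hl i hi => ?_⟩⟩
      · simp only
        split_ifs with h3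
        · omega
        · rcases c2 l hl with h4 | h4
          · exact absurd h4.1 h3
          · omega
      · simp only
        rcases c2 l hl with h4 | h4
        · rw [if_pos h4.1]
          exact Or.inl ⟨by omega, hb2 _ h4.2⟩
        · rw [if_neg (by omega), Nat.add_sub_cancel_left]
          refine Or.inr ⟨by omega, ?_⟩
          have h5 := h4.2.2
          rw [zero_add] at h5
          exact hb2 _ h5
      · rcases c3 l hl l' hl' with h4 | h4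
        · exact Or.inl (hb _ h4)
        · exact Or.inr fun t => by rw [← hη]; exact h4 t
      · rcases c4 l hl i hi with h4 | h4
        · exact Or.inl (hb _ h4)
        · exact Or.inr fun t => by rw [← hη]; exact h4 t
    · exact ⟨fun _ => 0, fun _ => 0, fun h3 => absurd h3 hq⟩
  choose α V hcl using hcl
  have hgg : ∀ q, Gd q → ∀ i < g.k, ∀ j < g.k, Sp m q (g.a i) (g.a j) := by
    intro q hq i hi j hj
    obtain ⟨hqQ, -, -⟩ := hGd' q hq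
    obtain ⟨-, hq1, -, -, hqN, -⟩ := ong_q hqQ
    have hq0 : (0 : ℝ) < q := by exact_mod_cast hq1
    by_cases hn : nd (g.a i - g.a j) ≤ 2 ^ (m / 90) / 2 ^ m
    · exact Or.inl hn
    · push Not at hn
      right
      intro t
      have hle : η ≤ 2 * ((k : ℝ) + 1) * η := by
        have : (0 : ℝ) ≤ k := Nat.cast_nonneg k
        nlinarith
      rw [← hη]
      by_cases ht : (q : ℤ) ∣ t
      · obtain ⟨u, rfl⟩ := ht
        have e : g.a i - g.a j - ((q * u : ℤ) : ℝ) / q = g.a i - g.a j - (u : ℤ) := by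
          push_cast
          field_simp
        rw [e, nd_sub_int]
        exact (hle.trans n3).trans hn.le
      · refine (hle.trans ?_).trans (hexc q hq i hi j hj t ht).le
        have : (0 : ℝ) ≤ k := Nat.cast_nonneg k
        nlinarith
  -- the family
  obtain ⟨cc, hcc⟩ : ∃ cc : ℕ → ℕ → ℝ, cc = fun l q => (h q).a l + (z l q : ℝ) / q := ⟨_, rfl⟩
  obtain ⟨bs, hbs⟩ : ∃ bs : ℕ → ℕ → ℝ, bs = fun v q => if v < k then g.a v else cc (v - k) q :=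
    ⟨_, rfl⟩
  obtain ⟨φ, hφ⟩ : ∃ φ, φ = ph k Gd (fun q => (h q).k) α V bs g.a := ⟨_, rfl⟩
  obtain ⟨u, hu⟩ : ∃ u, u = uu k Gd (fun q => (h q).k) (fun q => (h q).c) V g.k g.c := ⟨_, rfl⟩
  have hadm : Adm m (k * (2 * k) + k) (1 / th) φ u := by
    rw [hφ, hu]
    refine adm (δ := ((k : ℝ) + 1) * η) (cc := cc) (by positivity) n5 (by positivity)
      (fun a β hβ => h0 a β (by omega) hβ) (fun l β hβ => ?_) (fun v q => by rw [hbs]) ?_ ?_ ?_
      (fun q hq => (hcl q hq).2.2.2.1) (fun q hq => (hcl q hq).2.2.2.2) hgg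
    · apply hz l β
      intro q hq
      have h3 := hβ q hq
      rw [hcc] at h3
      exact h3
    · intro q hq l hl'
      have h3 := (hcl q hq).2.2.1 l hl'
      rw [hcc]
      exact h3
    · intro q hq l hl'
      exact (hcn (h q) l hl').trans (hnm q (hGd' q hq).1 _ (hh q (hGd' q hq).1).1)
    · intro i hi
      exact (hcn g i hi).trans hgnm
  have hfv := (hU lam m n (by omega) hl).2.2.1 φ u hadm
  rw [fv_tm] at hfv
  -- one prime
  have hone : ∀ q ∈ EB.QQ m, En th lam q (2 ^ m) n - En th lam 1 (2 ^ m) n -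
      lin lam q (2 ^ m) n g ≤ tm lam q (2 ^ m) n (fam (k * (2 * k) + k) φ u q) +
      ((1 / th) ^ 2 * (1 / 2) ^ (m / 300) + (2 + 8 / th) *
        (EB.ind (κ₁ ^ 2 < gapq th lam q (2 ^ P₀) (2 ^ (m - P₀)) n) +
          EB.ind (Exc q (2 ^ m) g.k g.a))) := by
    intro q hq
    obtain ⟨-, hq1, -, -, hqN, -⟩ := ong_q hq
    by_cases hG : Gd q
    · obtain ⟨d1, d2, d3, d4, d5⟩ := hcl q hG
      have h3 : ∀ x, (fam (k * (2 * k) + k) φ u q).f x = (sb ⟨(h q).k, (h q).c, α q⟩ g).f x := by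
        intro x
        rw [hφ, hu]
        exact fam_good k Gd (fun q => (h q).k) (fun q => (h q).c) α V bs g q hG (hkk q hG)
          (fun l hl' => d2 l hl') hgk x
      rw [tm_congr _ _ _ _ _ _ h3]
      have h4 := h1 th lam q (2 ^ m) n g (h q) ⟨(h q).k, (h q).c, α q⟩ hth hq1 hN1 hg
        (hh q hq).1 rfl (fun _ _ => rfl) d1
      have h5 := hN m (2 ^ m) n q ⟨(h q).k, (h q).c, α q⟩ (by omega) (by omega) hq
        (fun i hi j hj _ _ => d4 i hi j hj)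
      have h6' : (h q).nm ≤ 1 / th := hnm q hq _ (hh q hq).1
      have h6 : (⟨(h q).k, (h q).c, α q⟩ : Ex).nm ≤ 1 / th := h6'
      have h7 : (⟨(h q).k, (h q).c, α q⟩ : Ex).nm ^ 2 ≤ (1 / th) ^ 2 :=
        pow_le_pow_left₀ (nm_nonneg _) h6 2
      have h8 := mul_le_mul_of_nonneg_right h7
        (by positivity : (0 : ℝ) ≤ (1 / 2) ^ (m / 300))
      have h9 := (abs_le.1 h5).1
      have h10 := ind_nonneg (κ₁ ^ 2 < gapq th lam q (2 ^ P₀) (2 ^ (m - P₀)) n)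
      have h11 := ind_nonneg (Exc q (2 ^ m) g.k g.a)
      have h12 : 0 ≤ (2 + 8 / th) * (EB.ind (κ₁ ^ 2 < gapq th lam q (2 ^ P₀) (2 ^ (m - P₀)) n) +
          EB.ind (Exc q (2 ^ m) g.k g.a)) := by positivity
      unfold tm
      linarith
    · have h3 : ∀ x, (fam (k * (2 * k) + k) φ u q).f x = 0 := by
        intro x
        rw [hφ, hu]
        exact fam_bad k Gd (fun q => (h q).k) (fun q => (h q).c) α V bs g q hG x
      rw [tm_zero _ _ _ _ _ h3]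
      have h4 : 1 ≤ EB.ind (κ₁ ^ 2 < gapq th lam q (2 ^ P₀) (2 ^ (m - P₀)) n) +
          EB.ind (Exc q (2 ^ m) g.k g.a) := by
        by_cases h5 : κ₁ ^ 2 < gapq th lam q (2 ^ P₀) (2 ^ (m - P₀)) n
        · rw [ind_true h5]
          linarith [ind_nonneg (Exc q (2 ^ m) g.k g.a)]
        · by_cases h6 : Exc q (2 ^ m) g.k g.a
          · rw [ind_true h6]
            linarith [ind_nonneg (κ₁ ^ 2 < gapq th lam q (2 ^ P₀) (2 ^ (m - P₀)) n)]
          · exfalso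
            apply hG
            rw [hGd]
            exact ⟨hq, not_lt.1 h5, h6⟩
      have h5 := (hB th lam q (2 ^ m) n (h q) hth hl hq1 hN1 (hh q hq).1).2.2.1
      have h6 : (q : ℝ) / ((2 ^ m : ℕ) : ℝ) ≤ 1 := by
        rw [div_le_one (by positivity)]; exact_mod_cast hqN
      have h7 := (hB th lam 1 (2 ^ m) n g hth hl le_rfl hN1 hg).2.1
      have h8 := (abs_le.1 (lin_le hl (n := n) hq1 hqN g)).1
      have h9 : 8 * g.nm ≤ 8 / th := by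
        have : 8 / th = 8 * (1 / th) := by ring
        linarith
      have h10 : (2 + 8 / th) * 1 ≤ (2 + 8 / th) *
          (EB.ind (κ₁ ^ 2 < gapq th lam q (2 ^ P₀) (2 ^ (m - P₀)) n) +
          EB.ind (Exc q (2 ^ m) g.k g.a)) := mul_le_mul_of_nonneg_left h4 (by positivity)
      have h11 : 0 ≤ (1 / th) ^ 2 * ((1 : ℝ) / 2) ^ (m / 300) := by positivity
      linarith
  -- the sum over the primes
  have hsum : ∑ q ∈ EB.QQ m, 1 / (q : ℝ) * (En th lam q (2 ^ m) n - En th lam 1 (2 ^ m) n -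
      lin lam q (2 ^ m) n g) ≤
      ∑ q ∈ EB.QQ m, 1 / (q : ℝ) * tm lam q (2 ^ m) n (fam (k * (2 * k) + k) φ u q) +
      ((∑ q ∈ EB.QQ m, 1 / (q : ℝ)) * ((1 / th) ^ 2 * (1 / 2) ^ (m / 300)) + (2 + 8 / th) *
        (∑ q ∈ EB.QQ m, 1 / (q : ℝ) *
          EB.ind (κ₁ ^ 2 < gapq th lam q (2 ^ P₀) (2 ^ (m - P₀)) n) +
          ∑ q ∈ EB.QQ m, 1 / (q : ℝ) * EB.ind (Exc q (2 ^ m) g.k g.a))) := by
    rw [← sum_add_distrib, mul_sum, sum_mul, ← sum_add_distrib, ← sum_add_distrib]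
    apply sum_le_sum
    intro q hq
    have h3 : (0 : ℝ) ≤ 1 / (q : ℝ) := by positivity
    refine (mul_le_mul_of_nonneg_left (hone q hq) h3).trans (le_of_eq ?_)
    ring
  have he := exc_sum (m := m) (by omega) g.k g.a
  have hgk2 : (g.k : ℝ) ^ 2 ≤ (k : ℝ) ^ 2 := by
    have : (g.k : ℝ) ≤ k := by exact_mod_cast hgk
    gcongr
  have he2 := he.trans (mul_le_mul_of_nonneg_right hgk2
    (by positivity : (0 : ℝ) ≤ (1 / 2) ^ (m / 1000)))
  have hp : ((1 : ℝ) / 2) ^ (m / 300) ≤ (1 / 2) ^ (m / 1000) :=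
    pow_le_pow_of_le_one (by norm_num) (by norm_num) (by omega)
  have hi0 : 0 ≤ ∑ q ∈ EB.QQ m, 1 / (q : ℝ) *
      EB.ind (κ₁ ^ 2 < gapq th lam q (2 ^ P₀) (2 ^ (m - P₀)) n) :=
    sum_nonneg fun q _ => mul_nonneg (by positivity) (ind_nonneg _)
  obtain ⟨I, hI⟩ : ∃ I, I = ∑ q ∈ EB.QQ m, 1 / (q : ℝ) *
      EB.ind (κ₁ ^ 2 < gapq th lam q (2 ^ P₀) (2 ^ (m - P₀)) n) := ⟨_, rfl⟩
  obtain ⟨e, hee⟩ : ∃ e : ℝ, e = (1 / 2) ^ (m / 1000) := ⟨_, rfl⟩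
  have he0 : 0 ≤ e := by rw [hee]; positivity
  rw [← hI] at hsum hi0 ⊢
  rw [← hee] at he2 hp ⊢
  have p1 : (∑ q ∈ EB.QQ m, 1 / (q : ℝ)) * ((1 / th) ^ 2 * (1 / 2) ^ (m / 300)) ≤
      3 * ((1 / th) ^ 2 * e) := by
    apply mul_le_mul hQ.2 _ (by positivity) (by norm_num)
    exact mul_le_mul_of_nonneg_left hp (by positivity)
  have p2 : (2 + 8 / th) * (I + ∑ q ∈ EB.QQ m, 1 / (q : ℝ) * EB.ind (Exc q (2 ^ m) g.k g.a)) ≤
      (2 + 8 / th) * (I + (k : ℝ) ^ 2 * e) :=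
    mul_le_mul_of_nonneg_left (by linarith) (by positivity)
  have p3 : C * (I + e) = 3 * (1 / th) ^ 2 * I + 3 * ((1 / th) ^ 2 * e) +
      (2 + 8 / th) * (I + (k : ℝ) ^ 2 * e) + (2 + 8 / th) * ((k : ℝ) ^ 2 * I + e) := by
    rw [hCd]; ring
  have p4 : 0 ≤ 3 * (1 / th) ^ 2 * I := by positivity
  have p5 : 0 ≤ (2 + 8 / th) * ((k : ℝ) ^ 2 * I + e) := by positivity
  linarith

end Pool.Agent.H72.G9
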