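import Pool.Agent.H72.G9.UXCa

/-!
# Row UXC of the board g9 (MP_c59857_nt, theorem (H)): the family is admissible
-/

set_option autoImplicit false

open Finset Pool.Agent.H6.N4D Pool.Agent.H93 Pool.Agent.H93.GS Pool.Agent.H6.GS2 Pool.Agent.H6.G9

namespace Pool.Agent.H72.G9

lemma nd_zero' : nd 0 = 0 := by unfold nd; simp

lemma Sp_symm {m q : ℕ} {x y : ℝ} (h : Sp m q x y) : Sp m q y x := by
  rcases h with h | h
  · left; rw [nd_sub_comm]; exact h
  · right
    intro t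
    have h1 := h (-t)
    have h2 : y - x - (t : ℝ) / q = -(x - y - ((-t : ℤ) : ℝ) / q) := by push_cast; ring
    rw [h2, nd_neg]
    exact h1

theorem adm {m k : ℕ} {A δ B : ℝ} {G : ℕ → Prop} {kk : ℕ → ℕ} {c : ℕ → ℕ → ℂ} {α : ℕ → ℕ → ℝ}
    {V : ℕ → ℕ → ℕ} {bs cc : ℕ → ℕ → ℝ} {g : Ex} (hA : 0 ≤ A) (hδ : δ ≤ B) (hB : 0 ≤ B)
    (h0 : ∀ (a : ℝ) (β : ℕ → ℝ), (∀ q ∈ EB.QQ m, nd (β q - a) ≤ B) → Pool.Agent.H3.BT.NCt m β)
    (hL : ∀ (l : ℕ) (β : ℕ → ℝ), (∀ q ∈ EB.QQ m, nd (β q - cc l q) ≤ B) →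
      Pool.Agent.H3.BT.NCt m β)
    (hbs : ∀ v q, bs v q = if v < k then g.a v else cc (v - k) q)
    (hV : ∀ q, G q → ∀ l < kk q, (V q l < k ∧ nd (α q l - g.a (V q l)) ≤ δ) ∨
      (k ≤ V q l ∧ nd (α q l - cc (V q l - k) q) ≤ δ))
    (hc : ∀ q, G q → ∀ l < kk q, ‖c q l‖ ≤ A) (hg : ∀ i < g.k, ‖g.c i‖ ≤ A)
    (hhh : ∀ q, G q → ∀ l < kk q, ∀ l' < kk q, Sp m q (α q l) (α q l'))
    (hhg : ∀ q, G q → ∀ l < kk q, ∀ i < g.k, Sp m q (α q l) (g.a i))
    (hgg : ∀ q, G q → ∀ i < g.k, ∀ j < g.k, Sp m q (g.a i) (g.a j)) :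
    Adm m (k * (2 * k) + k) A (ph k G kk α V bs g.a) (uu k G kk c V g.k g.c) := by
  classical
  refine ⟨?_, ?_, ?_⟩
  · intro j _
    by_cases hj : j < k * (2 * k)
    · by_cases hv : j % (2 * k) < k
      · apply h0 (g.a (j % (2 * k)))
        intro q _
        unfold ph
        rw [if_pos hj]
        split_ifs with h1
        · rcases hV q h1.1 _ h1.2.1 with h2 | h2
          · rw [h1.2.2] at h2
            exact h2.2.trans hδ
          · rw [h1.2.2] at h2
            omega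
        · rw [hbs, if_pos hv, sub_self, nd_zero']
          exact hB
      · apply hL (j % (2 * k) - k)
        intro q _
        unfold ph
        rw [if_pos hj]
        split_ifs with h1
        · rcases hV q h1.1 _ h1.2.1 with h2 | h2
          · rw [h1.2.2] at h2
            omega
          · rw [h1.2.2] at h2
            exact h2.2.trans hδ
        · rw [hbs, if_neg hv, sub_self, nd_zero']
          exact hB
    · apply h0 (g.a (j - k * (2 * k)))
      intro q _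
      unfold ph
      rw [if_neg hj, sub_self, nd_zero']
      exact hB
  · intro j q
    unfold uu
    split_ifs with h1 h2 h3 h4
    · exact hc q h1 _ h3.1
    · rw [norm_zero]; exact hA
    · rw [norm_neg]; exact hg _ h4
    · rw [norm_zero]; exact hA
    · rw [norm_zero]; exact hA
  · intro q _ i _ j _ hi hj
    have key : ∀ i, uu k G kk c V g.k g.c i q ≠ 0 → G q ∧
        ((∃ l < kk q, ph k G kk α V bs g.a i q = α q l) ∨
          ∃ l < g.k, ph k G kk α V bs g.a i q = g.a l) := by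
      intro i hi
      unfold uu at hi
      split_ifs at hi with h1 h2 h3 h4
      · refine ⟨h1, Or.inl ⟨_, h3.1, ?_⟩⟩
        unfold ph
        rw [if_pos h2, if_pos ⟨h1, h3⟩]
      · exact absurd rfl hi
      · refine ⟨h1, Or.inr ⟨_, h4, ?_⟩⟩
        unfold ph
        rw [if_neg h2]
      · exact absurd rfl hi
      · exact absurd rfl hi
    obtain ⟨hG, h1⟩ := key i hi
    obtain ⟨-, h2⟩ := key j hj
    rcases h1 with ⟨l, hl, e1⟩ | ⟨l, hl, e1⟩ <;> rcases h2 with ⟨l', hl', e2⟩ | ⟨l', hl', e2⟩ <;>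
      rw [e1, e2]
    · exact hhh q hG l hl l' hl'
    · exact hhg q hG l hl l' hl'
    · exact Sp_symm (hhg q hG l' hl' l hl)
    · exact hgg q hG l hl l' hl'

end Pool.Agent.H72.G9
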