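import Pool.Agent.H6.G9.Targets
import Pool.Agent.H48.GSW.Tls

/-!
# Row UXC of the board g9 (MP_c59857_nt, theorem (H)): the family of a window and its values
-/

set_option autoImplicit false

open Finset Pool.Agent.H6.N4D Pool.Agent.H93 Pool.Agent.H93.GS Pool.Agent.H6.GS2 Pool.Agent.H6.G9

namespace Pool.Agent.H72.G9

/-- sums over pairs -/
lemma sum_dm (a b : ℕ) (hb : 0 < b) (F : ℕ → ℕ → ℂ) :
    ∑ j ∈ range (a * b), F (j / b) (j % b) = ∑ l ∈ range a, ∑ v ∈ range b, F l v := by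
  induction a with
  | zero => simp
  | succ a ih =>
    rw [sum_range_succ, ← ih, Nat.succ_mul, sum_range_add]
    congr 1
    apply sum_congr rfl
    intro j hj
    have hj' := mem_range.1 hj
    rw [Nat.mul_comm a b, Nat.mul_add_div hb, Nat.div_eq_of_lt hj', Nat.add_zero,
      Nat.mul_add_mod, Nat.mod_eq_of_lt hj']

open Classical in
/-- the frequencies of the family -/
noncomputable def ph (k : ℕ) (G : ℕ → Prop) (kk : ℕ → ℕ) (α : ℕ → ℕ → ℝ) (V : ℕ → ℕ → ℕ)
    (bs : ℕ → ℕ → ℝ) (ga : ℕ → ℝ) (j q : ℕ) : ℝ :=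
  if j < k * (2 * k) then
    (if G q ∧ j / (2 * k) < kk q ∧ V q (j / (2 * k)) = j % (2 * k) then α q (j / (2 * k))
      else bs (j % (2 * k)) q)
  else ga (j - k * (2 * k))

open Classical in
/-- the coefficients of the family -/
noncomputable def uu (k : ℕ) (G : ℕ → Prop) (kk : ℕ → ℕ) (c : ℕ → ℕ → ℂ) (V : ℕ → ℕ → ℕ)
    (r : ℕ) (gc : ℕ → ℂ) (j q : ℕ) : ℂ :=
  if G q then
    (if j < k * (2 * k) then
      (if j / (2 * k) < kk q ∧ V q (j / (2 * k)) = j % (2 * k) then c q (j / (2 * k)) else 0)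
    else (if j - k * (2 * k) < r then -gc (j - k * (2 * k)) else 0))
  else 0

/-- the values of the family at a good prime -/
lemma fam_good (k : ℕ) (G : ℕ → Prop) (kk : ℕ → ℕ) (c : ℕ → ℕ → ℂ) (α : ℕ → ℕ → ℝ)
    (V : ℕ → ℕ → ℕ) (bs : ℕ → ℕ → ℝ) (g : Ex) (q : ℕ) (hG : G q) (hkk : kk q ≤ k)
    (hV : ∀ l < kk q, V q l < 2 * k) (hr : g.k ≤ k) (x : ℕ) :
    (fam (k * (2 * k) + k) (ph k G kk α V bs g.a) (uu k G kk c V g.k g.c) q).f x =
      (sb ⟨kk q, c q, α q⟩ g).f x := by
  classical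
  have e1 : (sb ⟨kk q, c q, α q⟩ g).f x = ∑ l ∈ range (kk q), c q l * ee (α q l * x) +
      ∑ i ∈ range g.k, -g.c i * ee (g.a i * x) := by
    unfold sb Ex.f
    simp only
    rw [sum_range_add]
    congr 1
    · apply sum_congr rfl
      intro l hl
      rw [if_pos (mem_range.1 hl), if_pos (mem_range.1 hl)]
    · apply sum_congr rfl
      intro i _
      rw [if_neg (by omega), if_neg (by omega), Nat.add_sub_cancel_left]
  rw [e1]
  unfold fam Ex.f
  simp only
  rw [sum_range_add]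
  congr 1
  · rcases Nat.eq_zero_or_pos k with hk | hk
    · have h1 : kk q = 0 := by omega
      rw [h1, hk]
      simp
    obtain ⟨F, hF⟩ : ∃ F : ℕ → ℕ → ℂ, F = fun l v =>
      if l < kk q ∧ V q l = v then c q l * ee (α q l * x) else 0 := ⟨_, rfl⟩
    have h1 : ∀ j ∈ range (k * (2 * k)), uu k G kk c V g.k g.c j q *
        ee (ph k G kk α V bs g.a j q * x) = F (j / (2 * k)) (j % (2 * k)) := by
      intro j hj
      have hj' := mem_range.1 hj
      unfold uu ph
      rw [if_pos hG, if_pos hj', if_pos hj', hF]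
      simp only
      by_cases h2 : j / (2 * k) < kk q ∧ V q (j / (2 * k)) = j % (2 * k)
      · rw [if_pos h2, if_pos ⟨hG, h2⟩, if_pos h2]
      · rw [if_neg h2, if_neg h2, zero_mul]
    rw [sum_congr rfl h1, sum_dm k (2 * k) (by omega) F]
    have h2 : ∀ l ∈ range k, ∑ v ∈ range (2 * k), F l v =
        if l < kk q then c q l * ee (α q l * x) else 0 := by
      intro l _
      rw [hF]
      simp only
      by_cases h3 : l < kk q
      · rw [if_pos h3]
        have h4 : ∀ v ∈ range (2 * k), (if l < kk q ∧ V q l = v then c q l * ee (α q l * x)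
            else 0) = if v = V q l then c q l * ee (α q l * x) else 0 := by
          intro v _
          by_cases h5 : v = V q l
          · rw [if_pos h5, if_pos ⟨h3, h5.symm⟩]
          · rw [if_neg h5, if_neg fun h6 => h5 h6.2.symm]
        rw [sum_congr rfl h4, sum_ite_eq' (range (2 * k)) (V q l)
          (fun _ => c q l * ee (α q l * x)), if_pos (mem_range.2 (hV l h3))]
      · rw [if_neg h3]
        exact sum_eq_zero fun v _ => by rw [if_neg fun h6 => h3 h6.1]
    rw [sum_congr rfl h2, ← sum_filter]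
    apply sum_congr _ fun _ _ => rfl
    ext l
    rw [mem_filter, mem_range, mem_range]
    omega
  · have h1 : ∀ i ∈ range k, uu k G kk c V g.k g.c (k * (2 * k) + i) q *
        ee (ph k G kk α V bs g.a (k * (2 * k) + i) q * x) =
        if i < g.k then -g.c i * ee (g.a i * x) else 0 := by
      intro i _
      have hlt : ¬ (k * (2 * k) + i < k * (2 * k)) := by omega
      unfold uu ph
      rw [if_pos hG, if_neg hlt, if_neg hlt, Nat.add_sub_cancel_left]
      by_cases h2 : i < g.k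
      · rw [if_pos h2, if_pos h2]
      · rw [if_neg h2, if_neg h2, zero_mul]
    rw [sum_congr rfl h1, ← sum_filter]
    apply sum_congr _ fun _ _ => rfl
    ext i
    rw [mem_filter, mem_range, mem_range]
    omega

/-- the values of the family at the other primes -/
lemma fam_bad (k : ℕ) (G : ℕ → Prop) (kk : ℕ → ℕ) (c : ℕ → ℕ → ℂ) (α : ℕ → ℕ → ℝ)
    (V : ℕ → ℕ → ℕ) (bs : ℕ → ℕ → ℝ) (g : Ex) (q : ℕ) (hG : ¬ G q) (x : ℕ) :
    (fam (k * (2 * k) + k) (ph k G kk α V bs g.a) (uu k G kk c V g.k g.c) q).f x = 0 := by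
  classical
  unfold fam Ex.f
  simp only
  apply sum_eq_zero
  intro j _
  unfold uu
  rw [if_neg hG, zero_mul]

/-- one term of the functional -/
noncomputable def tm (lam : ℕ → ℝ) (q N n : ℕ) (F : Ex) : ℝ :=
  2 * (tx lam q N n F).re - ar 1 N n (fun x => ‖F.f x‖ ^ 2)

lemma tm_congr (lam : ℕ → ℝ) (q N n : ℕ) (F G : Ex) (h : ∀ x, F.f x = G.f x) :
    tm lam q N n F = tm lam q N n G := by
  unfold tm tx
  simp only [h]

lemma tm_zero (lam : ℕ → ℝ) (q N n : ℕ) (F : Ex) (h : ∀ x, F.f x = 0) :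
    tm lam q N n F = 0 := by
  unfold tm tx
  simp only [h]
  simp [ac, ar]

lemma fv_tm (lam : ℕ → ℝ) (m n J : ℕ) (φ : ℕ → ℕ → ℝ) (u : ℕ → ℕ → ℂ) :
    fv lam m n J φ u = ∑ q ∈ EB.QQ m, 1 / (q : ℝ) * tm lam q (2 ^ m) n (fam J φ u q) := rfl

end Pool.Agent.H72.G9
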